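import Mathlib
import Pool.Agent.X167.W.ComStmt

/-!
The Weinstein conjecture for Reeb flows with one (discrete) symmetry: if a strict contactomorphism `g`
of a closed contact manifold maps a point `x` to a point of its Reeb orbit, `g x = Φ_s x`, and the
derivatives of `g` and of `Φ_s` at `x` agree on no non-zero vector of the contact hyperplane, then the
Reeb orbit of `x` is closed.

For instance (`s = 0`): the Reeb orbit of a fixed point `x` of `g` is closed if `1` is not an eigenvalue
of the restriction of `D_x g` to the contact hyperplane at `x`.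
-/

open scoped Topology ContDiff Manifold
open Pool.Agent.H826R2.WStmt Pool.Agent.W671.RStmt

namespace Pool.Agent.Results.MP_e3ee0c_gt.CommutingMap

universe u v

theorem result
    {E : Type u} [NormedAddCommGroup E] [NormedSpace ℝ E] [FiniteDimensional ℝ E]
    -- a closed manifold `M` with a contact form `α`, its Reeb field `R` and the Reeb flow `Φ`
    {M : Type v} [TopologicalSpace M] [ChartedSpace E M] [IsManifold 𝓘(ℝ, E) ∞ M]
    [T2Space M] [CompactSpace M]
    (α : M → Cov E) (hα : IsContact α) (R : M → E) (hR : IsReeb α R)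
    (Φ : M → ℝ → M) (hΦ : IsFlow R Φ)
    -- a smooth map `g` with `g^*α = α`
    (g : M → M) (hg : ContMDiff 𝓘(ℝ, E) 𝓘(ℝ, E) ∞ g) (hgα : pull g α = α)
    -- a point `x` which is mapped to a point of its own orbit, `g x = Φ_s x`
    (x : M) (s : ℝ) (hx : g x = Φ x s)
    -- transverse nondegeneracy at `x`
    (hnd : ∀ u : E, ev (α x) u = 0 →
      D (E := E) (E' := E) g x u = D (E := E) (E' := E) (fun y => Φ y s) x u → u = 0) :
    -- the Reeb orbit of `x` is periodic
    ∃ T : ℝ, IsPeriodicOrbit R (Φ x) T :=
  Pool.Agent.X167.W.exists_periodic_of_symmetry α hα R hR Φ hΦ g hg hgα x s hx hnd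

end Pool.Agent.Results.MP_e3ee0c_gt.CommutingMap
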