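import Mathlib
import Pool.Agent.X167.W.CritStmt

/-!
The Weinstein conjecture for Reeb flows with a first integral which has one transversally nondegenerate
critical point: if the Reeb flow of a contact form `α` on a closed manifold of any dimension has a smooth
first integral `f` with a critical point `x` such that the Hessian of `f` at `x` is nondegenerate on the
contact hyperplane `ker α_x`, then the Reeb orbit of `x` is closed.
-/

open scoped Topology ContDiff Manifold
open Pool.Agent.H826R2.WStmt Pool.Agent.X167.W

namespace Pool.Agent.Results.MP_e3ee0c_gt.FirstIntegral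

universe u v

theorem result
    {E : Type u} [NormedAddCommGroup E] [NormedSpace ℝ E] [FiniteDimensional ℝ E]
    -- a closed manifold `M` with a contact form `α` and its Reeb field `R`
    {M : Type v} [TopologicalSpace M] [ChartedSpace E M] [IsManifold 𝓘(ℝ, E) ∞ M]
    [T2Space M] [CompactSpace M]
    (α : M → Cov E) (hα : IsContact α) (R : M → E) (hR : IsReeb α R)
    -- a smooth first integral `f` of the Reeb flow
    (f : M → ℝ) (hf : ContMDiff 𝓘(ℝ, E) 𝓘(ℝ, ℝ) ∞ f)
    (hfR : ∀ y, D (E := E) (E' := ℝ) f y (R y) = 0)
    -- a critical point `x` of `f` at which the Hessian is nondegenerate on the contact hyperplane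
    (x : M) (hcrit : ∀ u : E, D (E := E) (E' := ℝ) f x u = 0)
    (hhess : ∀ u : E, ev (α x) u = 0 → (∀ v : E, hess f x u v = 0) → u = 0) :
    -- the Reeb orbit of `x` is periodic
    ∃ (γ : ℝ → M) (T : ℝ), IsPeriodicOrbit R γ T ∧ γ 0 = x :=
  exists_periodic_of_crit α hα R hR f hf hfR x hcrit hhess

end Pool.Agent.Results.MP_e3ee0c_gt.FirstIntegral
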