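import Mathlib
import Pool.Agent.X167.W.Sys
import Pool.Agent.X167.W.Surf

/-!
The Weinstein conjecture, without the contact-type assumption, for Hamiltonian systems composed of
systems with one degree of freedom.

`Separable S H` is the smallest class of Hamiltonian systems which contains every smooth function on a
symplectic surface and every system all of whose compact regular level sets carry periodic orbits, and
which contains `H (x, y) = F (x, G y)` on `S × T` (with the form `ω₁ ⊕ ω₂`) for all smooth `F` and `G`
such that `G` on `T` and all the functions `F (·, g)` on `S` belong to it. For example, all functions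
`f (H₁, …, Hₙ)` of functions `Hᵢ` on symplectic surfaces `Mᵢ` on the product `M₁ × ⋯ × Mₙ`, of arbitrary
dimension `2n`, or `F (x, f (H₁, …, Hₙ))`, belong to it.
-/

open scoped Topology ContDiff Manifold

noncomputable section

namespace Pool.Agent.Results.MP_e3ee0c_gt.SeparableSystems

open Pool.Agent.X167.W

universe u

/-- Every non-empty compact regular level set of a separable system carries a periodic orbit. -/
theorem result {S : Sys.{u}} {H : S.M → ℝ} (h : Separable S H) (c : ℝ) (hne : ∃ x, H x = c)
    (hcompact : IsCompact {x | H x = c}) (hreg : ∀ x, H x = c → S.d H x ≠ 0) :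
    ∃ (γ : ℝ → S.M) (T : ℝ), S.IsPeriodic H γ T ∧ ∀ t, H (γ t) = c :=
  closes_of_separable h c hne hcompact hreg

end Pool.Agent.Results.MP_e3ee0c_gt.SeparableSystems
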