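import Mathlib
import Pool.Agent.X167.W.Sys
import Pool.Agent.X167.W.Stab

/-!
The Weinstein conjecture, without the contact-type assumption, for Hamiltonians `H (x, y) = F (x, G y)`
on `S × T`, where `S` is an *arbitrary* symplectic manifold, `F` is arbitrary, and `G` is a function
without local maxima (or without local minima) on a symplectic surface `T`, or more generally on a
composed system `T` (class `Separable`).

Example: `T = ℝ²` and `G y = |y|²`, hence all Hamiltonians `F (x, |y|²)` on `S × ℝ²ᵏ`, `k ≥ 1`.
-/

open scoped Topology ContDiff Manifold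

noncomputable section

namespace Pool.Agent.Results.MP_e3ee0c_gt.StabilizedSystems

open Pool.Agent.X167.W

universe u

/-- Every non-empty compact regular level set of `F (x, G y)` on `S × T` carries a periodic orbit. -/
theorem result {S T : Sys.{u}} {F : S.M × ℝ → ℝ} (hF : S.Smooth2 F) {G : T.M → ℝ}
    (hG : T.Smooth G) (hT : Separable T G)
    (hno : (∀ y, ¬ IsLocalMax G y) ∨ (∀ y, ¬ IsLocalMin G y)) (c : ℝ)
    (hne : ∃ p : S.M × T.M, F (p.1, G p.2) = c)
    (hcompact : IsCompact {p : S.M × T.M | F (p.1, G p.2) = c})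
    (hreg : ∀ p : S.M × T.M, F (p.1, G p.2) = c → (S.prod T).d (fun p => F (p.1, G p.2)) p ≠ 0) :
    ∃ (γ : ℝ → (S.prod T).M) (P : ℝ), (S.prod T).IsPeriodic (fun p => F (p.1, G p.2)) γ P ∧
      ∀ t, F ((γ t).1, G (γ t).2) = c :=
  closes_stab hF hG (closes_of_separable hT) hno c hne hcompact hreg

end Pool.Agent.Results.MP_e3ee0c_gt.StabilizedSystems
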